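import Pool.Agent.helper44.EX.Spec

set_option autoImplicit false

open Complex Metric Set Filter Topology MeasureTheory Pool.Agent.helper98.ILF

noncomputable section

namespace EX

theorem PAR_LL_le {x y : ℝ} (hx : x < 1) (hy : y < 1) : LL x ≤ LL y ↔ x ≤ y := by
  unfold LL
  rw [div_le_div_iff₀ (by linarith) (by linarith)]
  constructor
  · intro h; nlinarith
  · intro h; nlinarith

theorem PAR_LL_inv {P : ℝ} (hP : 1 ≤ P) : LL ((P - 1) / (P + 1)) = P := by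
  unfold LL
  have h1 : P + 1 ≠ 0 := by linarith
  have h2 : (1 : ℝ) - (P - 1) / (P + 1) = 2 / (P + 1) := by
    field_simp; ring
  have h3 : (1 : ℝ) + (P - 1) / (P + 1) = 2 * P / (P + 1) := by
    field_simp; ring
  rw [h2, h3]
  field_simp

theorem PAR_lt_one {P : ℝ} (hP : 1 ≤ P) : (P - 1) / (P + 1) < 1 := by
  rw [div_lt_one (by linarith)]; linarith

theorem PAR_sq {P : ℝ} (hP : 1 ≤ P) : 1 - ((P - 1) / (P + 1)) ^ 2 = 4 * P / (P + 1) ^ 2 := by
  have h1 : P + 1 ≠ 0 := by linarith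
  field_simp
  ring

theorem PAR (hONE : ONE_stmt) (hCHN : CHN_stmt) (hRHO : RHO_stmt) : PAR_stmt := by
  intro n δ g hn hδ0 hδ1 hg hgn hroot
  obtain ⟨σ, hσ0, hσ1, hσ⟩ := hONE δ hδ0 hδ1
  set lam := LL σ with hlam
  have hl1 : 1 < lam := by
    rw [hlam]; unfold LL
    rw [one_lt_div (by linarith)]; linarith
  have hl3 : lam < 3 := by
    rw [hlam]; unfold LL
    rw [div_lt_iff₀ (by linarith)]; linarith
  have hg1 : g ≤ 1 := by
    have : (1 : ℝ) ≤ n := by exact_mod_cast hn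
    nlinarith
  obtain ⟨j, hj⟩ := exists_pow_lt_of_lt_one (show (0 : ℝ) < g / 4 by linarith)
    (show lam / 3 < 1 by linarith)
  have hj0 : j ≠ 0 := by
    rintro rfl
    simp at hj
    linarith
  set P : ℝ := 3 ^ j with hP
  set Q : ℝ := lam ^ j with hQ
  have hQ1 : 1 < Q := one_lt_pow₀ hl1 hj0
  have hP1 : 1 < P := one_lt_pow₀ (by norm_num) hj0
  have hQP : 4 * Q < g * P := by
    have h1 : (lam / 3) ^ j = Q / P := by rw [div_pow]
    rw [h1, div_lt_iff₀ (by linarith)] at hj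
    linarith
  set R2 : ℝ := (P - 1) / (P + 1) with hR2
  set R1 : ℝ := (Q - 1) / (Q + 1) with hR1
  have hR2s : 1 - R2 ^ 2 = 4 * P / (P + 1) ^ 2 := PAR_sq hP1.le
  have hR1s : 1 - R1 ^ 2 = 4 * Q / (Q + 1) ^ 2 := PAR_sq hQ1.le
  have hR20 : 0 < R2 := div_pos (by linarith) (by linarith)
  have hR10 : 0 < R1 := div_pos (by linarith) (by linarith)
  have hR21 : R2 < 1 := PAR_lt_one hP1.le
  have hR11 : R1 < 1 := PAR_lt_one hQ1.le
  have hA : 4 * P / (P + 1) ^ 2 < 4 / P := by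
    rw [div_lt_div_iff₀ (by positivity) (by linarith)]
    nlinarith
  have hB : 4 / P ≤ g * (4 * Q / (Q + 1) ^ 2) := by
    have h1 : 4 / P ≤ (4 * Q / P) * (4 * Q / (Q + 1) ^ 2) := by
      rw [div_mul_div_comm, div_le_div_iff₀ (by linarith) (by positivity)]
      have : 0 ≤ P * (4 * (Q * 2 - (Q + 1)) * (Q * 2 + (Q + 1))) := by
        apply mul_nonneg (by linarith)
        apply mul_nonneg
        · linarith
        · linarith
      nlinarith
    have h2 : 4 * Q / P ≤ g := by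
      rw [div_le_iff₀ (by linarith)]; exact hQP.le
    refine h1.trans (mul_le_mul_of_nonneg_right h2 (by positivity))
  have hkey : (1 - R2 ^ 2) / g < 1 - R1 ^ 2 := by
    rw [div_lt_iff₀ hg, hR2s, hR1s]
    calc 4 * P / (P + 1) ^ 2 < 4 / P := hA
      _ ≤ g * (4 * Q / (Q + 1) ^ 2) := hB
      _ = _ := by ring
  have hpos : 0 < (1 - R2 ^ 2) / g := by
    rw [hR2s]; positivity
  have hin : R1 ^ 2 < 1 - (1 - R2 ^ 2) / g := by linarith
  have hin0 : 0 ≤ 1 - (1 - R2 ^ 2) / g := by nlinarith [sq_nonneg R1]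
  refine ⟨R1, Real.sqrt (1 - (1 - R2 ^ 2) / g), R2, ?_⟩
  refine ⟨hg, hgn, hR10, ?_, ?_, hR20, hR21, ?_, ?_, hroot⟩
  · exact Real.lt_sqrt_of_sq_lt hin
  · rw [Real.sqrt_lt' one_pos]
    linarith
  · rw [Real.sq_sqrt hin0]
    have : g * (1 - (1 - (1 - R2 ^ 2) / g)) = 1 - R2 ^ 2 := by
      field_simp
      ring
    rw [this]
  · intro θ hθ z hz w hw hzw
    have hrzw := hRHO.1 z hz w hw
    have h1 : LL (rho z w) ≤ 3 ^ j := by
      have := (PAR_LL_le (lt_of_le_of_lt hzw hR21) hR21).2 hzw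
      rwa [hR2, PAR_LL_inv hP1.le] at this
    have h2 := hCHN σ θ hσ0 hσ1 hθ.mt (hσ θ hθ) j z hz w hw h1
    have hrθ := hRHO.1 (θ z) (hθ.mt hz) (θ w) (hθ.mt hw)
    rw [← PAR_LL_le hrθ.2.1 hR11, hR1, PAR_LL_inv hQ1.le]
    exact h2

end EX

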